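import Pool.Agent.helper37.MA.Spec
import Pool.Agent.helper55.NM.Spec

/-!
# Project MW (MP_7e34bc_co, Q2, middle range): the window `n/3 < k ≤ 0.34 n` for a fixed number `p ≥ 3` of positive weights

RULES. Row `mw:XXX`: file `Pool/Agent/<seat>/MW/XXX.lean`, `import Pool.Agent.helper37.MW.Spec`, `set_option autoImplicit false`, `namespace Pool.Agent.helper37.MW`,
`open Finset Pool.Agent.NK`, theorem line as in the note (the other rows are hypotheses, so all rows are independent); auxiliary lemmas with prefix `XXX_`. Mathlib only.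
A FALSE or awkward statement: one line to helper37 at once.
-/

set_option autoImplicit false

namespace Pool.Agent.helper37.MW

open Finset Pool.Agent.NK

/-- the binomial probability -/
noncomputable def mu (p i : ℕ) (ρ : ℝ) : ℝ := (p.choose i : ℝ) * (ρ ^ i * (1 - ρ) ^ (p - i))

/-- **MPB** (short). Pascal: `mu (p+1) (i+1) = (1-ρ) mu p (i+1) + ρ mu p i` (for `i + 1 > p` the first term is 0 because of `p.choose (i+1) = 0`), `mu (p+1) 0 = (1-ρ) mu p 0`. So the bounds go from `p` to `p + 1`. Base `p = 5`: the six values are at most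
`(2/3)^5`, `(5/3)(2/3)^4 = 0.3293`, `0.3323`, `0.1712`, small; base `p = 8`: the nine values are at most `0.2757`. On `[1/3, 0.34]`: use `ρ ≤ 0.34`, `1 - ρ ≤ 2/3` where enough; for `10 ρ² (1-ρ)³` (increasing, at most its value `0.33235` at `0.34`), `28 ρ² (1-ρ)^6` (decreasing, `0.27313` at `1/3`),
`56 ρ³ (1-ρ)^5` (increasing, `0.27567` at `0.34`) use monotonicity or `nlinarith` with `ρ = 1/3 + u`, `0 ≤ u ≤ 1/150`. -/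
def MPB_stmt : Prop := ∀ (p i : ℕ) (ρ : ℝ), 1 / 3 ≤ ρ → ρ ≤ 0.34 →
  (5 ≤ p → mu p i ρ ≤ 0.333) ∧ (8 ≤ p → mu p i ρ ≤ 0.28)

/-- **MPS** (short). Finite checks (`ρ ∈ [1/3, 0.34]`, `1 - ρ ≤ 2/3`): `mu 3 1 = 3ρ(1-ρ)² ≤ 4/9` , `mu 3 2 ≤ 0.24`, `mu 4 1 = 4ρ(1-ρ)³ ≤ 0.41`, `mu 4 2 ≤ 0.31`, and `mu p i ≤ 0.28` for `3 ≤ i ≤ p ≤ 7` (15 cases; the largest are `35ρ³(1-ρ)⁴ ≤ 0.2719` and `20ρ³(1-ρ)³`). -/
def MPS_stmt : Prop := ∀ ρ : ℝ, 1 / 3 ≤ ρ → ρ ≤ 0.34 →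
  mu 3 1 ρ ≤ 0.4445 ∧ mu 3 2 ρ ≤ 0.24 ∧ mu 4 1 ρ ≤ 0.41 ∧ mu 4 2 ρ ≤ 0.31 ∧ ∀ p i : ℕ, 3 ≤ i → i ≤ p → p ≤ 7 → mu p i ρ ≤ 0.28

/-- **GWS** (medium, from MPB, MPS). `S` has at least two elements; `w i = 0.52^(2 #{l ∈ S | i < l})`. Let `s > s'` be the two largest elements: `s ≥ 2`. `0.52² = 0.2704`, `0.52⁴ ≤ 0.0732`. `∑_{i ≤ p} mu p i = 1`, `mu ≥ 0`.
`#S = 2`: `mu s + 0.2704 mu s'`: `p = 3`: `(s,s') = (2,1)`: `0.24 + 0.2704 * 0.4445`, `s = 3`: `0.28 + ...`; in all cases at most `0.4003`; `p = 4`: `s = 2`: `0.31 + 0.2704 * 0.41`, `s ≥ 3`: `0.28 + 0.2704 * 0.41`; `p ≥ 5`: `0.333 * 1.2704 = 0.42305`.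
`#S ≥ 3`: `s ≥ 3`, so `mu s ≤ 0.28` (MPB for `p ≥ 8`, MPS for `p ≤ 7`), the others have weight at most `0.0732`: total at most `0.0732 + (1 - 0.0732) mu s + (0.2704 - 0.0732) mu s'`, at most `0.0732 + 0.9268 * 0.28 + 0.1972 * 0.31..0.333 ≤ 0.41` (`s' ≥ 2`: `mu s' ≤ 0.333`). -/
def GWS_stmt : Prop := ∀ (p : ℕ) (S : Finset ℕ) (ρ : ℝ), 3 ≤ p → 1 / 3 ≤ ρ → ρ ≤ 0.34 → 2 ≤ #S → (∀ i ∈ S, 1 ≤ i ∧ i ≤ p) →
  ∑ i ∈ S, mu p i ρ * (0.52 : ℝ) ^ (2 * #{l ∈ S | i < l}) ≤ 0.43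

/-- **CHW** (medium, from GWS and BIN of helper55/NM/Spec). `S` = the set of the first coordinates of `C` (`c ↦ c.1` is injective on a strict chain; if `c.1 > p` the term is 0: take only the elements with `c.1 ≤ p` - if only one of these is left, its term is at most `mu p i ρ C(n,k)/(1-p²/n)`,
so use the chain `C' = C.filter (c.1 ≤ p)`; the statement assumes `2 ≤ #C'`). For `c ∈ C'`: `m = #{e ∈ C' | c.1 < e.1}`; the elements above `c` form a strict chain, so the largest one, `e`, has `e.1 ≥ c.1 + m`, `e.2 ≥ c.2 + m`, `e.1 + e.2 ≤ k`: `d = k - c.1 - c.2 ≥ 2 m`.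
BIN with `i = c.1`, this `d`, `R = 0.52`: `(1 - p²/n) C(q,c.2) ≤ ρ^i (1-ρ)^(p-i) 0.52^d C(n,k)`, `0.52^d ≤ 0.52^(2m)`. Multiply by `C(p,i)` and sum: GWS. -/
def CHW_stmt : Prop := ∀ (p q k : ℕ) (C : Finset (ℕ × ℕ)), 3 ≤ p → p ^ 2 < p + q → k ≤ q →
  1 / 3 ≤ (k : ℝ) / ((p : ℝ) + q) → (k : ℝ) / ((p : ℝ) + q) ≤ 0.34 → (k : ℝ) ≤ 0.52 * ((q : ℝ) - k) →
  (∀ c ∈ C, 1 ≤ c.1 ∧ 1 ≤ c.2 ∧ c.1 + c.2 ≤ k) → IsCh C → 2 ≤ #{c ∈ C | c.1 ≤ p} →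
  (1 - (p : ℝ) ^ 2 / ((p : ℝ) + q)) * ((∑ c ∈ C, p.choose c.1 * q.choose c.2 : ℕ) : ℝ) ≤ 0.43 * ((p + q).choose k : ℝ)

/-- **SGL** (short-medium). At most one element of `C` has `c.1 ≤ p`, the other terms are 0. `c.1 + c.2 ≤ k`, `C(q,c.2) ≤ C(q,k-c.1)` (`2 k ≤ q`), `Pool.Agent.NK.Base.prod_le` for `(p, q, c.1, k - c.1)` gives `((n+1)/k) C(n-(n+1)/k, k-1)`, `n = p + q`. Since `2 k ≤ n < 3 k`:
`(n+1)/k = 2`, or `n + 1 = 3 k` and `3 C(n-3,k-1) = 2 C(n-2,k-1)` (`C(3k-3,k-1) (2k-2) = C(3k-4,k-1) (3k-3)`, `k ≥ 2`). -/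
def SGL_stmt : Prop := ∀ (p q k : ℕ) (C : Finset (ℕ × ℕ)), 2 ≤ k → 2 * k ≤ q → p + q < 3 * k →
  (∀ c ∈ C, 1 ≤ c.1 ∧ 1 ≤ c.2 ∧ c.1 + c.2 ≤ k) → #{c ∈ C | c.1 ≤ p} ≤ 1 →
  ∑ c ∈ C, p.choose c.1 * q.choose c.2 ≤ 2 * (p + q - 2).choose (k - 1)

/-- **CST** (short). Constants: for `n = p + q ≥ 100 p² + 100`: `0.43 C(n,k) ≤ (1 - p²/n) 2 C(n-2,k-1)`, as `2 C(n-2,k-1) = 2 k (n-k)/(n (n-1)) C(n,k) ≥ 2ρ(1-ρ) C(n,k) ≥ (4/9) C(n,k)` and `(1 - 1/100) 4/9 ≥ 0.43`. And `2k ≤ q`, `k ≤ 0.52 (q - k)` (`1.52 * 0.34 = 0.5168 ≤ 0.52 * 0.9939`, `p/n ≤ 1/(100 p) `...), `p² < p + q`, `2 ≤ k`. -/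
def CST_stmt : Prop := ∀ p q k : ℕ, 3 ≤ p → 100 * p ^ 2 + 100 ≤ p + q → p + q < 3 * k → 50 * k ≤ 17 * (p + q) →
  p ^ 2 < p + q ∧ 2 ≤ k ∧ k ≤ q ∧ 2 * k ≤ q ∧ 1 / 3 ≤ (k : ℝ) / ((p : ℝ) + q) ∧ (k : ℝ) / ((p : ℝ) + q) ≤ 0.34 ∧
  (k : ℝ) ≤ 0.52 * ((q : ℝ) - k) ∧ 0 < 1 - (p : ℝ) ^ 2 / ((p : ℝ) + q) ∧
  0.43 * ((p + q).choose k : ℝ) ≤ (1 - (p : ℝ) ^ 2 / ((p : ℝ) + q)) * (2 * ((p + q - 2).choose (k - 1) : ℝ))

/-- **WIN** (short, from CHW, SGL, CST, PEP of helper37/MA/Spec). The window theorem; `p` = the number of the positive weights, `n - p` = the number of the negative weights. PEP with `V = 2 C(n-2,k-1)`; each chain: SGL, or CHW + CST. -/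
def WIN_stmt : Prop := ∀ p n k : ℕ, 3 ≤ p → 100 * p ^ 2 + 100 ≤ n → n < 3 * k → 50 * k ≤ 17 * n →
  ∀ x : Fin n → ℝ, (∀ i, x i ≠ 0) → Fintype.card {i // 0 < x i} = p →
  Pool.Agent.helper72.UP.zer x k ≤ 2 * (n - 2).choose (k - 1)

end Pool.Agent.helper37.MW
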